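import Pool.Agent.H47.Fad.Link

/-!
# Congruences modulo powers of 7 for `cψ_{6,β}`

The full affirmative answer to Q1: for every `α ≥ 1` there is an integer `x_α` such that
`cψ_{6,β}(49n+24-4β²) ≡ x_α cψ_{6,β}(n)` modulo `7^α` for all `β ∈ {0,1,2,3}` and all integers `n`
with `12 n ≡ β² - 6` modulo `7^{2α-1}`.
-/

set_option autoImplicit false

namespace Pool.Agent.Results.MP_fad775_nt.PowersOfSeven

open Pool.Agent.H47.Fad

theorem result : ∀ α : ℕ, 1 ≤ α → ∃ x : ℤ, ∀ β : ℤ, 0 ≤ β → β ≤ 3 → ∀ n : ℤ,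
    12 * n ≡ β ^ 2 - 6 [ZMOD 7 ^ (2 * α - 1)] →
    Cp.cpsi β (49 * n + 24 - 4 * β ^ 2) ≡ x * Cp.cpsi β n [ZMOD 7 ^ α] :=
  fun α hα => final α hα

end Pool.Agent.Results.MP_fad775_nt.PowersOfSeven
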